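import Pool.Agent.W275.UB.Stm

/-! The critical polynomial. -/

set_option autoImplicit false

namespace Pool.Agent.W74.UB.C2

open MvPolynomial Pool.Agent.H936R2 Pool.Agent.H927R2.RD Pool.Agent.W275.UB H294UB

/-- the forms whose common zeros are the critical periodic points -/
noncomputable def gg {R : Type} [CommRing R] {n : ℕ} (U : Fin n → MvPolynomial (Fin n) R) (e : ℕ) :
    (Fin n × Fin n) ⊕ Unit → MvPolynomial (Fin n) R
  | Sum.inl (j, k) => itr U e j * X k - itr U e k * X j
  | Sum.inr () => (Matrix.of fun i j => pderiv j (U i)).det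

def dg (n d e : ℕ) : (Fin n × Fin n) ⊕ Unit → ℕ
  | Sum.inl _ => d ^ e + 1
  | Sum.inr () => n * (d - 1)

lemma gg_hom (h1 : S_itr) {R : Type} [CommRing R] {n d : ℕ} (U : Fin n → MvPolynomial (Fin n) R)
    (hU : ∀ i, (U i).IsHomogeneous d) (e : ℕ) (j : (Fin n × Fin n) ⊕ Unit) :
    (gg U e j).IsHomogeneous (dg n d e j) := by
  have hit := (h1 R n d U).2.2.1 hU e
  rcases j with ⟨j, k⟩ | ⟨⟩
  · exact ((hit j).mul (isHomogeneous_X R k)).sub ((hit k).mul (isHomogeneous_X R j))
  · show ((Matrix.of fun i j => pderiv j (U i)).det).IsHomogeneous (n * (d - 1))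
    rw [Matrix.det_apply]
    refine IsHomogeneous.sum _ _ _ fun σ _ => ?_
    have hp : (∏ i, Matrix.of (fun i j => pderiv j (U i)) (σ i) i).IsHomogeneous
        (n * (d - 1)) := by
      have := IsHomogeneous.prod (R := R) Finset.univ
        (fun i => Matrix.of (fun i j => pderiv j (U i)) (σ i) i) (fun _ => d - 1)
        (fun i _ => (hU (σ i)).pderiv)
      simpa using this
    rcases Int.units_eq_one_or (Equiv.Perm.sign σ) with h | h
    · rw [h, one_smul]; exact hp
    · rw [h, Units.neg_smul, one_smul]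
      exact hp.neg

lemma map_U {n d : ℕ} {R : Type} [CommRing R] (v : Idx n d → R)
    (ψ : MvPolynomial (Idx n d) ℤ →+* R) (hψ : ∀ q, ψ (X q) = v q) (i : Fin n) :
    map ψ (sy (X : Idx n d → MvPolynomial (Idx n d) ℤ) i) = sy v i := by
  show map ψ (form fun κ => X (i, κ)) = form fun κ => v (i, κ)
  rw [map_form]
  simp_rw [hψ]

lemma eval_gg (h1 : S_itr) {n d : ℕ} {R : Type} [CommRing R] (v : Idx n d → R)
    (ψ : MvPolynomial (Idx n d) ℤ →+* R) (hψ : ∀ q, ψ (X q) = v q) (e : ℕ) (x : Fin n → R)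
    (j k : Fin n) :
    eval x (map ψ (gg (sy (X : Idx n d → MvPolynomial (Idx n d) ℤ)) e (Sum.inl (j, k)))) =
      (pt (sy v))^[e] x j * x k - (pt (sy v))^[e] x k * x j := by
  have hm : ∀ i, map ψ (itr (sy (X : Idx n d → MvPolynomial (Idx n d) ℤ)) e i) =
      itr (sy v) e i := by
    intro i
    rw [(h1 _ n d _).2.2.2 R ψ e i]
    congr 1
    funext i
    exact map_U v ψ hψ i
  have he : ∀ i, eval x (itr (sy v) e i) = (pt (sy v))^[e] x i := by
    intro i
    rw [← (h1 R n d (sy v)).1 e x]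
    rfl
  show eval x (map ψ (itr (sy X) e j * X k - itr (sy X) e k * X j)) = _
  rw [map_sub, map_mul, map_mul, map_X, map_X, hm, hm, map_sub, map_mul, map_mul, eval_X, eval_X,
    he, he]

lemma eval_det {n d : ℕ} {R : Type} [CommRing R] (v : Idx n d → R)
    (ψ : MvPolynomial (Idx n d) ℤ →+* R) (hψ : ∀ q, ψ (X q) = v q) (e : ℕ) (x : Fin n → R) :
    eval x (map ψ (gg (sy (X : Idx n d → MvPolynomial (Idx n d) ℤ)) e (Sum.inr ()))) =
      (jac (sy v) x).det := by
  show ((eval x).comp (map ψ)) ((Matrix.of fun i j => pderiv j (sy X i)).det) = _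
  rw [RingHom.map_det]
  congr 1
  ext i j
  show eval x (map ψ (pderiv j (sy X i))) = eval x (pderiv j (sy v i))
  rw [← pderiv_map, map_U v ψ hψ]

theorem main (h1 : S_itr) (_ : S_eul) (h3 : S_cram) (h4 : S_nul) (h5 : S_model) : S_c2 := by
  intro N d e hd he
  obtain ⟨k, hk, hka, v, hv⟩ := h5 N d hd
  set U := sy (X : Idx (N + 1) d → MvPolynomial (Idx (N + 1) d) ℤ) with hU
  set φ : MvPolynomial (Idx (N + 1) d) ℤ →+* k := (aeval v).toRingHom with hφ
  have hφX : ∀ q, φ (X q) = v q := by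
    intro q
    exact aeval_X v q
  obtain ⟨s, hs⟩ := h4 k ((Fin (N + 1) × Fin (N + 1)) ⊕ Unit) (N + 1)
    (fun j => map φ (gg U e j)) (by
      intro x hx
      by_contra hx0
      obtain ⟨i, hi⟩ := Function.ne_iff.1 hx0
      have hi : x i ≠ 0 := hi
      refine hv e x ((pt (sy v))^[e] x i / x i) he hx0 ?_ ?_
      · funext j
        have := hx (Sum.inl (j, i))
        rw [hU, eval_gg h1 v φ hφX e x j i, sub_eq_zero] at this
        rw [Pi.smul_apply, smul_eq_mul, div_mul_eq_mul_div, eq_div_iff hi]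
        exact this
      · have := hx (Sum.inr ())
        rw [hU, eval_det v φ hφX e x] at this
        exact this)
  obtain ⟨c, hc, hcm⟩ := h3 (MvPolynomial (Idx (N + 1) d) ℤ) k
    ((Fin (N + 1) × Fin (N + 1)) ⊕ Unit) φ (N + 1) s (gg U e) (dg (N + 1) d e)
    (gg_hom h1 U (fun i => sys_isHomogeneous _ i) e) (hs s le_rfl)
  refine ⟨c, s, ?_, ?_⟩
  · rintro rfl
    exact hc (map_zero φ)
  · intro R _ v' x l hl i
    set ψ : MvPolynomial (Idx (N + 1) d) ℤ →+* R := (aeval v').toRingHom with hψ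
    have hψX : ∀ q, ψ (X q) = v' q := by
      intro q
      exact aeval_X v' q
    have hle : Ideal.span (Set.range (gg U e)) ≤
        Ideal.comap ((eval x).comp (map ψ)) (Ideal.span {(jac (sy v') x).det}) := by
      rw [Ideal.span_le]
      rintro _ ⟨j, rfl⟩
      rw [SetLike.mem_coe, Ideal.mem_comap, Ideal.mem_span_singleton]
      rcases j with ⟨j, k⟩ | ⟨⟩
      · rw [RingHom.comp_apply, hU, eval_gg h1 v' ψ hψX e x j k, hl]
        simp only [Pi.smul_apply, smul_eq_mul]
        have : l * x j * x k - l * x k * x j = 0 := by ring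
        rw [this]
        exact dvd_zero _
      · rw [RingHom.comp_apply, hU, eval_det v' ψ hψX e x]
    have hm := hle (hcm (Finsupp.single i s) (Finsupp.degree_single i s))
    have hpr : (Finsupp.single i s).prod (fun n e => x n ^ e) = x i ^ s :=
      Finsupp.prod_single_index (pow_zero _)
    rw [Ideal.mem_comap, Ideal.mem_span_singleton, RingHom.comp_apply, map_monomial,
      eval_monomial, hpr] at hm
    exact hm

end Pool.Agent.W74.UB.C2
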